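import Mathlib

/-!
A highly recursive graph of maximum degree 5 with no recursive partition into parts of
maximum degree at most 1 and at most 3.

Vertices are quadruples `(e, i, j, g)`: `e` names a tree, `i` is a level, `j` a position in the
level and `g` a position in a ten-vertex gadget. A vertex `(e, i, j, 0)` has four children on
level `i + 1` unless level `i` of tree `e` is stopped, in which case it is vertex `0` of a gadget.
-/

namespace Pool.Agent.P.MP_fbc7b8_lc

open Nat.Partrec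

abbrev Vx := ℕ × ℕ × ℕ × ℕ

/-- Level `i` of tree `e` is stopped. -/
def stop (e i : ℕ) : Prop := Code.evaln i (Denumerable.ofNat Code e) e = some (i % 2)

instance (e i : ℕ) : Decidable (stop e i) := by unfold stop; infer_instance

/-- The edges of the gadget, in both directions. -/
def gadL : List (ℕ × ℕ) :=
  [(0, 2), (0, 5), (0, 7), (0, 8), (1, 2), (1, 3), (1, 4), (1, 6), (1, 7), (2, 5), (2, 8), (2, 9),
   (3, 4), (3, 5), (3, 8), (3, 9), (4, 6), (4, 9), (5, 6), (5, 7), (6, 8), (6, 9), (7, 8), (7, 9),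
   (2, 0), (5, 0), (7, 0), (8, 0), (2, 1), (3, 1), (4, 1), (6, 1), (7, 1), (5, 2), (8, 2), (9, 2),
   (4, 3), (5, 3), (8, 3), (9, 3), (6, 4), (9, 4), (6, 5), (7, 5), (8, 6), (9, 6), (8, 7), (9, 7)]

lemma gad_symm : ∀ p ∈ gadL, (p.2, p.1) ∈ gadL := by decide

lemma gad_ne : ∀ p ∈ gadL, p.1 ≠ p.2 := by decide

lemma gad_lt : ∀ p ∈ gadL, p.1 < 10 ∧ p.2 < 10 := by decide

/-- Degrees in the gadget. -/
def gdeg : List ℕ := [4, 5, 5, 5, 4, 5, 5, 5, 5, 5]

def gnb (g : ℕ) : Finset ℕ := (Finset.range 10).filter fun g' => (g, g') ∈ gadL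

lemma mem_gnb {g g' : ℕ} : g' ∈ gnb g ↔ (g, g') ∈ gadL := by
  simp only [gnb, Finset.mem_filter, Finset.mem_range, and_iff_right_iff_imp]
  exact fun h => (gad_lt _ h).2

lemma card_gnb (g : ℕ) : (gnb g).card = gdeg.getD g 0 := by
  rcases Nat.lt_or_ge g 10 with h | h
  · interval_cases g <;> decide
  · have h1 : gnb g = ∅ := by
      ext g'
      simp only [mem_gnb, Finset.notMem_empty, iff_false]
      intro h2
      have := (gad_lt _ h2).1
      omega
    rw [h1, List.getD_eq_default _ _ (by simpa [gdeg] using h)]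
    rfl

lemma gdeg_le (g : ℕ) : gdeg.getD g 0 ≤ 5 := by
  rcases Nat.lt_or_ge g 10 with h | h
  · interval_cases g <;> decide
  · rw [List.getD_eq_default _ _ (by simpa [gdeg] using h)]
    omega

/-- Adjacency. -/
def adj (v w : Vx) : Prop :=
  v.1 = w.1 ∧
    ((v.2.1 = w.2.1 ∧ v.2.2.1 = w.2.2.1 ∧ stop v.1 v.2.1 ∧ (v.2.2.2, w.2.2.2) ∈ gadL) ∨
     (v.2.2.2 = 0 ∧ w.2.2.2 = 0 ∧ w.2.1 = v.2.1 + 1 ∧ w.2.2.1 / 4 = v.2.2.1 ∧ ¬ stop v.1 v.2.1) ∨
     (v.2.2.2 = 0 ∧ w.2.2.2 = 0 ∧ v.2.1 = w.2.1 + 1 ∧ v.2.2.1 / 4 = w.2.2.1 ∧ ¬ stop w.1 w.2.1))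

lemma adj_symm {v w : Vx} (h : adj v w) : adj w v := by
  obtain ⟨e, i, j, g⟩ := v
  obtain ⟨e', i', j', g'⟩ := w
  simp only [adj] at h ⊢
  obtain ⟨rfl, h | h | h⟩ := h
  · obtain ⟨rfl, rfl, h1, h2⟩ := h
    exact ⟨rfl, Or.inl ⟨rfl, rfl, h1, gad_symm _ h2⟩⟩
  · exact ⟨rfl, Or.inr (Or.inr ⟨h.2.1, h.1, h.2.2⟩)⟩
  · exact ⟨rfl, Or.inr (Or.inl ⟨h.2.1, h.1, h.2.2⟩)⟩

lemma adj_irrefl (v : Vx) : ¬ adj v v := by
  rintro ⟨-, h | h | h⟩
  · exact gad_ne _ h.2.2.2 rfl
  · omega
  · omega

/-- The neighbours below or inside the gadget. -/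
def down (v : Vx) : Finset Vx :=
  if stop v.1 v.2.1 then (gnb v.2.2.2).image fun g' => (v.1, v.2.1, v.2.2.1, g')
  else if v.2.2.2 = 0 then (Finset.range 4).image fun c => (v.1, v.2.1 + 1, 4 * v.2.2.1 + c, 0)
  else ∅

/-- The parent. -/
def up (v : Vx) : Finset Vx :=
  if v.2.2.2 = 0 ∧ 0 < v.2.1 ∧ ¬ stop v.1 (v.2.1 - 1) then {(v.1, v.2.1 - 1, v.2.2.1 / 4, 0)} else ∅

lemma adj_iff (v w : Vx) : adj v w ↔ w ∈ down v ∪ up v := by
  obtain ⟨e, i, j, g⟩ := v
  obtain ⟨e', i', j', g'⟩ := w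
  simp only [adj, down, up, Finset.mem_union]
  constructor
  · rintro ⟨rfl, h | h | h⟩
    · obtain ⟨rfl, rfl, h1, h2⟩ := h
      left
      rw [if_pos h1]
      exact Finset.mem_image.mpr ⟨g', mem_gnb.mpr h2, rfl⟩
    · obtain ⟨rfl, rfl, rfl, rfl, h1⟩ := h
      left
      rw [if_neg h1, if_pos rfl]
      refine Finset.mem_image.mpr ⟨j' % 4, Finset.mem_range.mpr (by omega), ?_⟩
      simp only [Prod.mk.injEq, true_and, and_true]
      omega
    · obtain ⟨rfl, rfl, rfl, rfl, h1⟩ := h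
      right
      rw [if_pos ⟨rfl, by omega, by simpa using h1⟩]
      simp
  · rintro (h | h)
    · split_ifs at h with h1 h2
      · obtain ⟨x, hx, h3⟩ := Finset.mem_image.mp h
        simp only [Prod.mk.injEq] at h3
        obtain ⟨rfl, rfl, rfl, rfl⟩ := h3
        exact ⟨rfl, Or.inl ⟨rfl, rfl, h1, mem_gnb.mp hx⟩⟩
      · obtain ⟨x, hx, h3⟩ := Finset.mem_image.mp h
        simp only [Prod.mk.injEq] at h3
        obtain ⟨rfl, rfl, rfl, rfl⟩ := h3
        have := Finset.mem_range.mp hx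
        exact ⟨rfl, Or.inr (Or.inl ⟨h2, rfl, rfl, by omega, h1⟩)⟩
      · simp at h
    · split_ifs at h with h1
      · simp only [Finset.mem_singleton, Prod.mk.injEq] at h
        obtain ⟨rfl, rfl, rfl, rfl⟩ := h
        exact ⟨rfl, Or.inr (Or.inr ⟨h1.1, rfl, by omega, rfl, h1.2.2⟩)⟩
      · simp at h

/-- The degree. -/
def deg (v : Vx) : ℕ :=
  (if stop v.1 v.2.1 then gdeg.getD v.2.2.2 0 else if v.2.2.2 = 0 then 4 else 0) +
    (if v.2.2.2 = 0 ∧ 0 < v.2.1 ∧ ¬ stop v.1 (v.2.1 - 1) then 1 else 0)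

lemma card_nb (v : Vx) : (down v ∪ up v).card = deg v := by
  obtain ⟨e, i, j, g⟩ := v
  rw [Finset.card_union_of_disjoint]
  · simp only [deg, down, up]
    congr 1
    · split_ifs
      · rw [Finset.card_image_of_injective _ (fun a b h => by simpa using h), card_gnb]
      · rw [Finset.card_image_of_injective _ (fun a b h => by simpa using h)]; simp
      · simp
    · split_ifs <;> simp
  · rw [Finset.disjoint_left]
    intro w h1 h2
    simp only [down, up] at h1 h2
    split_ifs at h2 with h3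
    · simp only [Finset.mem_singleton] at h2
      subst h2
      split_ifs at h1
      · obtain ⟨x, -, h4⟩ := Finset.mem_image.mp h1
        simp only [Prod.mk.injEq] at h4
        omega
      · obtain ⟨x, -, h4⟩ := Finset.mem_image.mp h1
        simp only [Prod.mk.injEq] at h4
        omega
      · simp at h1
    · simp at h2

lemma deg_le (v : Vx) : deg v ≤ 5 := by
  obtain ⟨e, i, j, g⟩ := v
  simp only [deg]
  have := gdeg_le g
  split_ifs with h1 h2 h3 h4 h5
  · obtain ⟨rfl, -⟩ := h2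
    decide
  all_goals omega

lemma stop_zero (e : ℕ) : ¬ stop e 0 := by simp [stop, Code.evaln]

lemma deg_eq_five : ∃ v : Vx, deg v = 5 := by
  refine ⟨(0, 1, 0, 0), ?_⟩
  simp only [deg]
  have := stop_zero 0
  split_ifs <;> simp_all [gdeg]

/-! ### Primitive recursiveness -/

lemma primrec_stop : PrimrecRel stop := by
  have h1 : Primrec fun p : ℕ × ℕ => Code.evaln p.2 (Denumerable.ofNat Code p.1) p.1 :=
    Code.primrec_evaln.comp
      ((Primrec.snd.pair ((Primrec.ofNat Code).comp Primrec.fst)).pair Primrec.fst)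
  have h2 : Primrec fun p : ℕ × ℕ => (some (p.2 % 2) : Option ℕ) :=
    Primrec.option_some.comp (Primrec.nat_mod.comp Primrec.snd (Primrec.const 2))
  exact Primrec.eq.comp h1 h2

lemma primrecPred_mem {β : Type} [Primcodable β] (L : List β) : PrimrecPred fun b => b ∈ L := by
  induction L with
  | nil => exact (Primrec.eq.comp (Primrec.const (0 : ℕ)) (Primrec.const 1)).of_eq (by simp)
  | cons a L ih =>
    exact ((Primrec.eq.comp Primrec.id (Primrec.const a)).or ih).of_eq (by simp)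

lemma primrec_adj : PrimrecPred fun p : Vx × Vx => adj p.1 p.2 := by
  have a1 : Primrec fun p : Vx × Vx => p.1.1 := Primrec.fst.comp Primrec.fst
  have a2 : Primrec fun p : Vx × Vx => p.1.2.1 := Primrec.fst.comp (Primrec.snd.comp Primrec.fst)
  have a3 : Primrec fun p : Vx × Vx => p.1.2.2.1 :=
    Primrec.fst.comp (Primrec.snd.comp (Primrec.snd.comp Primrec.fst))
  have a4 : Primrec fun p : Vx × Vx => p.1.2.2.2 :=
    Primrec.snd.comp (Primrec.snd.comp (Primrec.snd.comp Primrec.fst))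
  have b1 : Primrec fun p : Vx × Vx => p.2.1 := Primrec.fst.comp Primrec.snd
  have b2 : Primrec fun p : Vx × Vx => p.2.2.1 := Primrec.fst.comp (Primrec.snd.comp Primrec.snd)
  have b3 : Primrec fun p : Vx × Vx => p.2.2.2.1 :=
    Primrec.fst.comp (Primrec.snd.comp (Primrec.snd.comp Primrec.snd))
  have b4 : Primrec fun p : Vx × Vx => p.2.2.2.2 :=
    Primrec.snd.comp (Primrec.snd.comp (Primrec.snd.comp Primrec.snd))
  have z : Primrec fun _ : Vx × Vx => (0 : ℕ) := Primrec.const 0
  have f : Primrec fun _ : Vx × Vx => (4 : ℕ) := Primrec.const 4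
  exact (Primrec.eq.comp a1 b1).and
    (((Primrec.eq.comp a2 b2).and ((Primrec.eq.comp a3 b3).and ((primrec_stop.comp a1 a2).and
        ((primrecPred_mem gadL).comp (a4.pair b4))))).or
      (((Primrec.eq.comp a4 z).and ((Primrec.eq.comp b4 z).and
        ((Primrec.eq.comp b2 (Primrec.succ.comp a2)).and
          ((Primrec.eq.comp (Primrec.nat_div.comp b3 f) a3).and (primrec_stop.comp a1 a2).not)))).or
      ((Primrec.eq.comp a4 z).and ((Primrec.eq.comp b4 z).and
        ((Primrec.eq.comp a2 (Primrec.succ.comp b2)).and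
          ((Primrec.eq.comp (Primrec.nat_div.comp a3 f) b3).and (primrec_stop.comp b1 b2).not))))))

lemma primrec_deg : Primrec deg := by
  have a1 : Primrec fun v : Vx => v.1 := Primrec.fst
  have a2 : Primrec fun v : Vx => v.2.1 := Primrec.fst.comp Primrec.snd
  have a4 : Primrec fun v : Vx => v.2.2.2 := Primrec.snd.comp (Primrec.snd.comp Primrec.snd)
  have z : Primrec fun _ : Vx => (0 : ℕ) := Primrec.const 0
  have o : Primrec fun _ : Vx => (1 : ℕ) := Primrec.const 1
  exact Primrec.nat_add.comp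
    (Primrec.ite (primrec_stop.comp a1 a2)
      ((Primrec.list_getD 0).comp (Primrec.const gdeg) a4)
      (Primrec.ite (Primrec.eq.comp a4 z) (Primrec.const 4) z))
    (Primrec.ite ((Primrec.eq.comp a4 z).and ((Primrec.nat_lt.comp z a2).and
      (primrec_stop.comp a1 (Primrec.nat_sub.comp a2 o)).not)) o z)

/-! ### The forcing argument -/

lemma gadget_bool : ∀ b0 b1 b2 b3 b4 b5 b6 b7 b8 b9 : Bool,
    (∀ g ∈ Finset.range 10,
      ((gnb g).filter fun g' => [b0, b1, b2, b3, b4, b5, b6, b7, b8, b9].getD g' false =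
          [b0, b1, b2, b3, b4, b5, b6, b7, b8, b9].getD g false).card ≤
        if [b0, b1, b2, b3, b4, b5, b6, b7, b8, b9].getD g false then 1 else 3) → b0 = false := by
  decide +kernel

/-- A colouring `P` (true means first part) is good. -/
def Good (P : Vx → Bool) : Prop :=
  ∀ (v : Vx) (s : Finset Vx), (∀ w ∈ s, adj v w ∧ P w = P v) → s.card ≤ if P v then 1 else 3

lemma good_stop {P : Vx → Bool} (hP : Good P) {e i : ℕ} (h : stop e i) (j : ℕ) :
    P (e, i, j, 0) = false := by
  have key : ∀ g < 10, [P (e, i, j, 0), P (e, i, j, 1), P (e, i, j, 2), P (e, i, j, 3),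
      P (e, i, j, 4), P (e, i, j, 5), P (e, i, j, 6), P (e, i, j, 7), P (e, i, j, 8),
      P (e, i, j, 9)].getD g false = P (e, i, j, g) := by
    intro g hg
    interval_cases g <;> rfl
  refine gadget_bool _ (P (e, i, j, 1)) (P (e, i, j, 2)) (P (e, i, j, 3)) (P (e, i, j, 4))
    (P (e, i, j, 5)) (P (e, i, j, 6)) (P (e, i, j, 7)) (P (e, i, j, 8)) (P (e, i, j, 9)) ?_
  intro g hg
  have hg' := Finset.mem_range.mp hg
  rw [key g hg', ← Finset.card_image_of_injective (f := fun g' => ((e, i, j, g') : Vx)) _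
    (fun a b h => by simpa using h)]
  apply hP
  intro w hw
  obtain ⟨g', h1, rfl⟩ := Finset.mem_image.mp hw
  obtain ⟨h2, h3⟩ := Finset.mem_filter.mp h1
  have h4 := mem_gnb.mp h2
  rw [key g' (gad_lt _ h4).2] at h3
  exact ⟨⟨rfl, Or.inl ⟨rfl, rfl, h, h4⟩⟩, h3⟩

lemma good_step {P : Vx → Bool} (hP : Good P) {e i : ℕ} (h : ¬ stop e i) (b : Bool)
    (hb : ∀ j, P (e, i + 1, j, 0) = b) (j : ℕ) : P (e, i, j, 0) = !b := by
  by_contra hc
  have hc' : P (e, i, j, 0) = b := by
    cases b <;> simpa using hc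
  have h1 := hP (e, i, j, 0) ((Finset.range 4).image fun c => (e, i + 1, 4 * j + c, 0)) (by
    intro w hw
    obtain ⟨c, h1, rfl⟩ := Finset.mem_image.mp hw
    have := Finset.mem_range.mp h1
    exact ⟨⟨rfl, Or.inr (Or.inl ⟨rfl, rfl, rfl, by simp only; omega, h⟩)⟩, by rw [hb, hc']⟩)
  rw [Finset.card_image_of_injective _ (fun a b h => by simpa using h)] at h1
  simp only [Finset.card_range] at h1
  split_ifs at h1 <;> omega

lemma good_root {P : Vx → Bool} (hP : Good P) {e D : ℕ} (hD : stop e D)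
    (hmin : ∀ i < D, ¬ stop e i) : P (e, 0, 0, 0) = decide (D % 2 = 1) := by
  have key : ∀ t ≤ D, ∀ j, P (e, D - t, j, 0) = decide (t % 2 = 1) := by
    intro t
    induction t with
    | zero => intro _ j; simpa using good_stop hP hD j
    | succ t ih =>
      intro ht j
      have h1 : D - t = D - (t + 1) + 1 := by omega
      have h2 := good_step hP (hmin (D - (t + 1)) (by omega)) (decide (t % 2 = 1))
        (fun j => by rw [← h1]; exact ih (by omega) j) j
      rw [h2]
      rcases Nat.mod_two_eq_zero_or_one t with h | h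
      · have : (t + 1) % 2 = 1 := by omega
        simp [h, this]
      · have : (t + 1) % 2 = 0 := by omega
        simp [h, this]
  simpa using key D le_rfl 0

/-- No good colouring has computable values at the roots. -/
lemma no_computable {P : Vx → Bool} (hP : Good P) :
    ¬ Computable fun e : ℕ => P (e, 0, 0, 0) := by
  classical
  intro hc
  have h1 : Computable fun e : ℕ => (cond (P (e, 0, 0, 0)) 0 1 : ℕ) :=
    Computable.cond hc (Computable.const 0) (Computable.const 1)
  obtain ⟨c, hcode⟩ := Code.exists_code.mp (Partrec.nat_iff.mp h1.partrec)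
  set e := Encodable.encode c with he
  set x : ℕ := cond (P (e, 0, 0, 0)) 0 1 with hx
  have hce : Denumerable.ofNat Code e = c := by simp [he]
  have h2 : x ∈ Code.eval c e := by rw [hcode]; simp [hx]
  obtain ⟨k, hk⟩ := Code.evaln_complete.mp h2
  have hx2 : x < 2 := by rw [hx]; cases P (e, 0, 0, 0) <;> simp
  have hex : ∃ i, stop e i := by
    refine ⟨2 * k + x, ?_⟩
    have h3 := Code.evaln_mono (show k ≤ 2 * k + x by omega) hk
    have h4 : (2 * k + x) % 2 = x := by omega
    unfold stop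
    rw [hce, h4]
    exact h3
  have h3 := good_root hP (Nat.find_spec hex) (fun i hi => Nat.find_min hex hi)
  have h4 : Nat.find hex % 2 = x := by
    have h5 : stop e (Nat.find hex) := Nat.find_spec hex
    generalize Nat.find hex = D at h5
    unfold stop at h5
    rw [hce] at h5
    exact Part.mem_unique (Code.evaln_sound h5) h2
  rw [h4, hx] at h3
  revert h3
  cases P (e, 0, 0, 0) <;> simp

end Pool.Agent.P.MP_fbc7b8_lc
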